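import Pool.Agent.U28.SF.SF20
import Pool.Agent.Q278.KT.Fin

set_option autoImplicit false

/-!
# Prime patterns in EVERY interval `(u, u + N]` with `N ≥ u ^ (0.615 - δ)`, in all its short intervals

For every `k` and every length `H` between `λ log N` and a power of `log N` a positive proportion (measured by the
Hardy-Littlewood constant) of all the patterns `T ⊆ [1, H]` with `k + 1` elements has the following property in EVERY
interval `(u, u + N]` with `u ^ (0.615 - δ) ≤ N ≤ u`, for instance between consecutive fifth powers `u = n ^ 5`,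
`u + N + 1 = (n + 1) ^ 5`; the patterns may depend on the interval. The number of the `n` in the interval for which all
`n + t`, `t ∈ T`, are prime has the conjectured order of magnitude; for a positive proportion of the integers `x` of the
interval ALL the intervals `(x, x + M]`, `M ≤ N`, in which at least one such `n` is expected contain the right order of
them; the same for every subset `U` of positive relative density, and even for the elements of `U` which are the first of
`m` terms of an arithmetic progression in `U` with difference at most a power of `log N`.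

Proof: the number of the primes in the interval comes from the counting theorem of the starting library for separated short
intervals with few primes (`Pool.Agent.Q278.KT`, `Pool.Agent.U766.OP.all_long`, helper766), the upper bound of the average of
the singular series is `Pool.Agent.Helper22K9.Trp.gall` (starting library); the energy of dense sets of prime tuples at
their mean spacing and the covering argument are `Pool.Agent.U28.SF`; Szemerédi's theorem for sifted sets is from the
starting library.
-/

namespace Pool.Agent.Results.MP_c03ca8_nt.PatternsInEveryWindow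

open Finset Filter

/-- the number of residue classes modulo `p` occupied by `T` -/
def nu (T : Finset ℕ) (p : ℕ) : ℕ := (T.image (· % p)).card

/-- the factor at `p` of the singular series of `T` -/
noncomputable def loc (T : Finset ℕ) (p : ℕ) : ℝ :=
  (1 - (nu T p : ℝ) / p) / (1 - 1 / (p : ℝ)) ^ T.card

/-- the singular series of `T` -/
noncomputable def S (T : Finset ℕ) : ℝ := ∏' p : Nat.Primes, loc T p

open Classical in
/-- the integers `u < n ≤ u + N` for which all `n + t`, `t ∈ T`, are prime -/
noncomputable def Q (u N : ℕ) (T : Finset ℕ) : Finset ℕ :=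
  (Ioc u (u + N)).filter (fun n => ∀ t ∈ T, (n + t).Prime)

/-- `n` is the first of `m` terms of an arithmetic progression in `U` with difference between `1` and `D` -/
def FirstTerm (m : ℕ) (D : ℝ) (U : Finset ℕ) (n : ℕ) : Prop :=
  ∃ d : ℕ, 1 ≤ d ∧ (d : ℝ) ≤ D ∧ ∀ j < m, n + j * d ∈ U

open Classical in
/-- At least `κ N` of the integers `u ≤ x ≤ u + N` are such that for ALL natural numbers `M ≤ N` with `μ M ≥ 1` the
interval `(x, x + M]` contains at least `κ μ M` integers with the property `P`. -/
def Everywhere (κ μ : ℝ) (u N : ℕ) (P : ℕ → Prop) : Prop :=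
  κ * N ≤ (((Icc u (u + N)).filter (fun x => ∀ M : ℕ, 1 ≤ μ * M → M ≤ N →
    κ * (μ * M) ≤ (((Ioc x (x + M)).filter P).card : ℝ))).card : ℝ)

/-- With `μ = S T / (log N) ^ |T|`: `S T` is positive, `Q u N T` has at least `κ μ N` elements, and every subset `U` of
`Q u N T` of relative density at least `ρ` satisfies `Everywhere κ μ u N (FirstTerm m ((log N) ^ B) U)`. -/
def Good (κ ρ : ℝ) (m B u N : ℕ) (T : Finset ℕ) : Prop :=
  0 < S T ∧ κ * (S T / Real.log N ^ T.card * N) ≤ (Q u N T).card ∧
    ∀ U ⊆ Q u N T, ρ * (Q u N T).card ≤ U.card →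
      Everywhere κ (S T / Real.log N ^ T.card) u N (FirstTerm m (Real.log N ^ B) U)

open Classical in
/-- The products `S T` converge. There is `δ > 0` such that for every `k` there are `lam, c > 0` such that for all `m` and
`ρ > 0` there are `κ > 0` and `B` such that for every `C`, all large `u`, all `N` with `u ^ (0.615 - δ) ≤ N ≤ u` and all `H`
with `lam log N ≤ H ≤ (log N) ^ C`: the sum of `S T` over the subsets `T` of `[1, H]` with `k + 1` elements for which
`Good κ ρ m B u N T` holds is at least `c H ^ (k + 1)`; the sum over all `T` is at most `C' H ^ (k + 1)`. -/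
theorem result :
    (∀ T : Finset ℕ, HasProd (fun p : Nat.Primes => loc T p) (S T)) ∧
    (∀ k : ℕ, ∃ H₀ : ℕ, ∀ H : ℕ, H₀ ≤ H →
      ∑ T ∈ (Icc 1 H).powersetCard (k + 1), S T ≤ 2 / (k + 1).factorial * (H : ℝ) ^ (k + 1)) ∧
    ∃ δ : ℝ, 0 < δ ∧ ∀ k : ℕ, ∃ lam c : ℝ, 0 < lam ∧ 0 < c ∧ ∀ (m : ℕ) (ρ : ℝ), 0 < ρ → ∃ κ : ℝ, 0 < κ ∧
      ∃ B : ℕ, ∀ C : ℝ, ∃ u₀ : ℕ, ∀ u N : ℕ, u₀ ≤ u → (u : ℝ) ^ (0.615 - δ) ≤ N → N ≤ u →
        ∀ H : ℕ, lam * Real.log N ≤ H → (H : ℝ) ≤ Real.log N ^ C →
          c * (H : ℝ) ^ (k + 1) ≤ ∑ T ∈ ((Icc 1 H).powersetCard (k + 1)).filter (Good κ ρ m B u N), S T := by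
  refine ⟨fun T => Pool.Agent.H387R2.Uni.CT_hasProd T, fun k => ?_, ?_⟩
  · obtain ⟨D₀, h⟩ := Pool.Agent.Helper22K9.Trp.gall k 1 one_pos
    refine ⟨D₀, fun H hH => ?_⟩
    have h1 := h H hH
    have hf : (0 : ℝ) < (k + 1).factorial := by exact_mod_cast Nat.factorial_pos _
    rw [div_mul_eq_mul_div, le_div_iff₀ hf]
    have h2 : ∑ T ∈ (Icc 1 H).powersetCard (k + 1), S T = ∑ T ∈ (Icc 1 H).powersetCard (k + 1), Pool.Agent.H387R2.Uni.CT T := rfl
    rw [h2]
    linarith
  · obtain ⟨δ, hδ, hδ1, h⟩ := Pool.Agent.U28.SF.tuples_long Pool.Agent.Q278.KT.mainp_043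
      (by norm_num) (by norm_num) (by norm_num) (by norm_num) (by norm_num)
    refine ⟨δ, hδ, fun k => ?_⟩
    obtain ⟨lam, c, hlam, hc, h⟩ := h k
    refine ⟨lam, c, hlam, hc, fun m ρ hρ => ?_⟩
    obtain ⟨κ, hκ, B, h⟩ := h m ρ hρ
    refine ⟨κ, hκ, B, fun C => ?_⟩
    obtain ⟨u₀, h⟩ := eventually_atTop.1 (h C)
    refine ⟨u₀, fun u N hu hN1 hN2 H hH1 hH2 => ?_⟩
    have key := h u hu N (by
      refine le_trans (le_of_eq ?_) hN1
      congr 1
      norm_num) hN2
    exact key H hH1 hH2

end Pool.Agent.Results.MP_c03ca8_nt.PatternsInEveryWindow
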