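import Mathlib
import Pool.Agent.U766.OP.Same

/-!
# MP_c03ca8_nt (prime quadruplets between consecutive fifth powers): the same patterns of consecutive primes between the
fifth powers of the members of progressions, in every dense set and in arbitrary windows

It is not known whether there is ANY vector `g` of three gaps such that four consecutive primes with these gaps occur between
`n ^ 5` and `(n + 1) ^ 5` for all large `n`.  We show that every dense set `A ⊆ [N, 2 N]` contains progressions (and members of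
every other family of configurations for which there is a density theorem) such that one and the same vector `g` occurs, with
the expected frequency, between the fifth powers of ALL the members of the progression; this holds for a positive proportion
of all the vectors `g` in `[1, K log N] ^ 3`.  In place of the whole intervals between the fifth powers one may take
arbitrary windows `(a n, a n + H n]` of length at least `n ^ (3.075 - δ)` in them, one for every `n ∈ A`.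

Method: a lower bound for the number of the primes in all intervals of length `x ^ (0.615 - δ)` (from the theorem
`Pool.Agent.Q278.KT.mainp_043` of the starting library), the upper bound sieve and the second moment of the singular series
give in EVERY window a positive proportion of all the vectors (`Pool.Agent.U766.OP.box_many`); double counting gives vectors
which belong to a dense set of `n`; then one uses Szemerédi's theorem (`Pool.Agent.N524.szem_abs`), or any other density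
theorem.
-/

set_option autoImplicit false

namespace Pool.Agent.Results.MP_c03ca8_nt.SamePatternsInProgressions

open Filter Finset

/-- the primes, numbered from `pr 0 = 2` -/
noncomputable def pr (n : ℕ) : ℕ := Nat.nth Nat.Prime n

open Classical in
/-- the primes `q` of `(a, a + H]` such that the next `l` gaps between primes are `g 0, …, g (l - 1)` and the last of these
`l + 1` primes is at most `a + H` -/
noncomputable def Pos {l : ℕ} (g : Fin l → ℕ) (a H : ℕ) : Finset ℕ :=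
  (Ioc a (a + H)).filter (fun q => ∃ n, pr n = q ∧ pr (n + l) ≤ a + H ∧
    ∀ i : Fin l, pr (n + i + 1) = pr (n + i) + g i)

/-- every subset of `[N, 2 N]` with at least `ρ N` elements, `N` large, contains a member of the family `𝓕` -/
def DensityRegular (𝓕 : Set (Finset ℕ)) : Prop :=
  ∀ ρ : ℝ, 0 < ρ → ∃ N₀ : ℕ, ∀ N : ℕ, N₀ ≤ N → ∀ A : Finset ℕ, A ⊆ Icc N (2 * N) → ρ * N ≤ (A.card : ℝ) →
    ∃ F ∈ 𝓕, F ⊆ A

/-- the number of the `p` such that `p, p + g₁, p + g₁ + g₂, p + g₁ + g₂ + g₃` are four consecutive primes between `n ^ 5` and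
`(n + 1) ^ 5` -/
noncomputable def Q (g₁ g₂ g₃ n : ℕ) : ℕ :=
  {p : ℕ | n ^ 5 < p ∧ p + g₁ + g₂ + g₃ < (n + 1) ^ 5 ∧ p.Prime ∧ (p + g₁).Prime ∧ (p + g₁ + g₂).Prime ∧
    (p + g₁ + g₂ + g₃).Prime ∧ ∀ r : ℕ, r.Prime → p ≤ r → r ≤ p + g₁ + g₂ + g₃ →
      r = p ∨ r = p + g₁ ∨ r = p + g₁ + g₂ ∨ r = p + g₁ + g₂ + g₃}.ncard

lemma Pos_le_Q (g : Fin 3 → ℕ) {n H : ℕ} (hH : n ^ 5 + H + 1 = (n + 1) ^ 5) :
    (Pool.Agent.U766.OP.Pos g (n ^ 5) H).card ≤ Q (g 0) (g 1) (g 2) n := by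
  classical
  unfold Q
  rw [← Set.ncard_coe_finset]
  apply Set.ncard_le_ncard
  · intro q hq
    unfold Pool.Agent.U766.OP.Pos at hq
    rw [mem_coe, mem_filter, mem_Ioc] at hq
    obtain ⟨⟨h1, h2⟩, k, rfl, h3, h4⟩ := hq
    have e0 : Pool.Agent.U766.OP.pr (k + 1) = Pool.Agent.U766.OP.pr k + g 0 := h4 0
    have e1 : Pool.Agent.U766.OP.pr (k + 2) = Pool.Agent.U766.OP.pr (k + 1) + g 1 := h4 1
    have e2 : Pool.Agent.U766.OP.pr (k + 3) = Pool.Agent.U766.OP.pr (k + 2) + g 2 := h4 2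
    have f1 : Pool.Agent.U766.OP.pr k + g 0 + g 1 = Pool.Agent.U766.OP.pr (k + 2) := by rw [e1, e0]
    have f2 : Pool.Agent.U766.OP.pr k + g 0 + g 1 + g 2 = Pool.Agent.U766.OP.pr (k + 3) := by rw [e2, e1, e0]
    refine ⟨h1, ?_, Pool.Agent.U766.OP.pr_prime k, ?_, ?_, ?_, fun r hr hr1 hr2 => ?_⟩
    · rw [f2]
      omega
    · rw [← e0]
      exact Pool.Agent.U766.OP.pr_prime _
    · rw [f1]
      exact Pool.Agent.U766.OP.pr_prime _
    · rw [f2]
      exact Pool.Agent.U766.OP.pr_prime _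
    · rw [f2, f1, ← e0]
      rw [f2] at hr2
      obtain ⟨j, hj⟩ : ∃ j, Pool.Agent.U766.OP.pr j = r := ⟨_, Pool.Agent.U766.OP.pr_count hr⟩
      rw [← hj] at hr1 hr2 ⊢
      have g1 : k ≤ j := (Pool.Agent.U766.OP.pr_mono.le_iff_le).1 hr1
      have g2 : j ≤ k + 3 := (Pool.Agent.U766.OP.pr_mono.le_iff_le).1 hr2
      have g3 : j = k ∨ j = k + 1 ∨ j = k + 2 ∨ j = k + 3 := by omega
      rcases g3 with h | h | h | h
      · left; rw [h]
      · right; left; rw [h]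
      · right; right; left; rw [h]
      · right; right; right; rw [h]
  · apply Set.Finite.subset (Set.finite_Iio ((n + 1) ^ 5))
    rintro p ⟨-, h2, -⟩
    rw [Set.mem_Iio]
    omega

/-- **Theorem.** (1) For all `m ≥ 1` and `l` there are `K, c, η, δ > 0` such that for every density regular family `𝓕` and every
`ρ > 0`, for all large `N`, all `A ⊆ [N, 2 N]` with at least `ρ N` elements and all windows `(a n, a n + H n]`, `n ∈ A`, between
`n ^ m` and `(n + 1) ^ m` with `H n ≥ (n ^ m) ^ (0.615 - δ)`: for at least `η (log N) ^ l` of the vectors `g ∈ [1, K log N] ^ l`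
the set `A` contains a member `F` of `𝓕` such that for all `n ∈ F` the window of `n` contains at least
`c H n / (log N) ^ (l + 1)` strings of `l + 1` consecutive primes with the gaps `g`.
(2) Let `k ≥ 1`.  The family of the `k`-term progressions is density regular; so every dense `A ⊆ [N, 2 N]`, `N` large, contains
for at least `η (log N) ^ 3` of the triples `g ∈ [1, K log N] ^ 3` a `k`-term progression such that for all its members `n` there
are at least `c n ^ 4 / (log n) ^ 4` quadruplets of consecutive primes with the gaps `g` between `n ^ 5` and `(n + 1) ^ 5`. -/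
theorem result :
    (∀ m l : ℕ, 1 ≤ m → ∃ K c η δ : ℝ, 0 < K ∧ 0 < c ∧ 0 < η ∧ 0 < δ ∧
      ∀ 𝓕 : Set (Finset ℕ), DensityRegular 𝓕 → ∀ ρ : ℝ, 0 < ρ → ∃ N₀ : ℕ, ∀ N : ℕ, N₀ ≤ N →
        ∀ A : Finset ℕ, A ⊆ Icc N (2 * N) → ρ * N ≤ (A.card : ℝ) → ∀ a H : ℕ → ℕ,
          (∀ n ∈ A, n ^ m ≤ a n ∧ a n + H n ≤ (n + 1) ^ m ∧ ((n : ℝ) ^ m) ^ (0.615 - δ) ≤ H n) →
          ∃ G : Finset (Fin l → ℕ), η * Real.log N ^ l ≤ (G.card : ℝ) ∧ ∀ g ∈ G,
            (∀ i, 1 ≤ g i ∧ (g i : ℝ) ≤ K * Real.log N) ∧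
            ∃ F ∈ 𝓕, F ⊆ A ∧ ∀ n ∈ F, c * H n / Real.log N ^ (l + 1) ≤ ((Pos g (a n) (H n)).card : ℝ)) ∧
    (∀ k : ℕ, DensityRegular {F | ∃ a d : ℕ, 1 ≤ d ∧ F = (range k).image (fun j => a + j * d)}) ∧
    (∃ K c η : ℝ, 0 < K ∧ 0 < c ∧ 0 < η ∧ ∀ k : ℕ, 1 ≤ k → ∀ ρ : ℝ, 0 < ρ → ∃ N₀ : ℕ, ∀ N : ℕ, N₀ ≤ N →
      ∀ A : Finset ℕ, A ⊆ Icc N (2 * N) → ρ * N ≤ (A.card : ℝ) →
        ∃ G : Finset (Fin 3 → ℕ), η * Real.log N ^ 3 ≤ (G.card : ℝ) ∧ ∀ g ∈ G,
          (∀ i, 1 ≤ g i ∧ (g i : ℝ) ≤ K * Real.log N) ∧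
          ∃ b d : ℕ, 1 ≤ d ∧ ∀ j < k, b + j * d ∈ A ∧
            c * ((b + j * d : ℕ) : ℝ) ^ 4 / Real.log ((b + j * d : ℕ) : ℝ) ^ 4 ≤ (Q (g 0) (g 1) (g 2) (b + j * d) : ℝ)) := by
  classical
  have hmain : ∀ m l : ℕ, 1 ≤ m → ∃ K c η δ : ℝ, 0 < K ∧ 0 < c ∧ 0 < η ∧ 0 < δ ∧
      ∀ 𝓕 : Set (Finset ℕ), DensityRegular 𝓕 → ∀ ρ : ℝ, 0 < ρ → ∃ N₀ : ℕ, ∀ N : ℕ, N₀ ≤ N →
        ∀ A : Finset ℕ, A ⊆ Icc N (2 * N) → ρ * N ≤ (A.card : ℝ) → ∀ a H : ℕ → ℕ,
          (∀ n ∈ A, n ^ m ≤ a n ∧ a n + H n ≤ (n + 1) ^ m ∧ ((n : ℝ) ^ m) ^ (0.615 - δ) ≤ H n) →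
          ∃ G : Finset (Fin l → ℕ), η * Real.log N ^ l ≤ (G.card : ℝ) ∧ ∀ g ∈ G,
            (∀ i, 1 ≤ g i ∧ (g i : ℝ) ≤ K * Real.log N) ∧
            ∃ F ∈ 𝓕, F ⊆ A ∧ ∀ n ∈ F,
              c * H n / Real.log N ^ (l + 1) ≤ ((Pool.Agent.U766.OP.Pos g (a n) (H n)).card : ℝ) := by
    intro m l hm
    obtain ⟨K, c, η, δ, h1, h2, h3, h4, -, h5⟩ := Pool.Agent.U766.OP.same_patterns m l hm
    exact ⟨K, c, η, δ, h1, h2, h3, h4, h5⟩
  have hap : ∀ k : ℕ, DensityRegular {F | ∃ a d : ℕ, 1 ≤ d ∧ F = (range k).image (fun j => a + j * d)} :=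
    fun k => Pool.Agent.U766.OP.ap_regular k
  refine ⟨hmain, hap, ?_⟩
  obtain ⟨K, c, η, δ, hK, hc, hη, hδ, h1⟩ := hmain 5 3 (by norm_num)
  refine ⟨K, c, η, hK, hc, hη, fun k hk ρ hρ => ?_⟩
  obtain ⟨N₀, hN₀⟩ := h1 _ (hap k) ρ hρ
  refine ⟨max N₀ 3, fun N hN A hA hAc => ?_⟩
  have hN3 : 3 ≤ N := (le_max_right _ _).trans hN
  obtain ⟨H, hH⟩ : ∃ H : ℕ → ℕ, H = fun n => 5 * n ^ 4 + 10 * n ^ 3 + 10 * n ^ 2 + 5 * n := ⟨_, rfl⟩
  have hHeq : ∀ n, n ^ 5 + H n + 1 = (n + 1) ^ 5 := by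
    intro n
    rw [hH]
    ring
  have hH4 : ∀ n : ℕ, (n : ℝ) ^ 4 ≤ H n := by
    intro n
    rw [hH]
    push_cast
    have : (0 : ℝ) ≤ n := Nat.cast_nonneg n
    nlinarith [pow_nonneg this 4, pow_nonneg this 3, pow_nonneg this 2]
  obtain ⟨G, hG1, hG2⟩ := hN₀ N ((le_max_left _ _).trans hN) A hA hAc (fun n => n ^ 5) H (fun n hn => by
    have h2 := mem_Icc.1 (hA hn)
    have hn1 : (1 : ℝ) ≤ n := by exact_mod_cast (by omega : 1 ≤ n)
    have hn0 : (0 : ℝ) < n := by linarith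
    refine ⟨le_rfl, by have := hHeq n; show n ^ 5 + H n ≤ (n + 1) ^ 5; omega, ?_⟩
    refine le_trans ?_ (hH4 n)
    calc ((n : ℝ) ^ 5) ^ (0.615 - δ) ≤ ((n : ℝ) ^ 5) ^ (4 / 5 : ℝ) := by
          apply Real.rpow_le_rpow_of_exponent_le
          · exact one_le_pow₀ hn1
          · linarith
      _ = (n : ℝ) ^ 4 := by
          rw [← Real.rpow_natCast (n : ℝ) 5, ← Real.rpow_mul hn0.le, ← Real.rpow_natCast (n : ℝ) 4]
          norm_num)
  refine ⟨G, hG1, fun g hg => ?_⟩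
  obtain ⟨e1, F, ⟨b, d, hd, rfl⟩, hFA, e2⟩ := hG2 g hg
  refine ⟨e1, b, d, hd, fun j hj => ?_⟩
  have hmem : b + j * d ∈ (range k).image (fun j => b + j * d) := mem_image.2 ⟨j, mem_range.2 hj, rfl⟩
  refine ⟨hFA hmem, ?_⟩
  have h2 := mem_Icc.1 (hA (hFA hmem))
  obtain ⟨n, hn⟩ : ∃ n, n = b + j * d := ⟨_, rfl⟩
  rw [← hn] at hmem h2 ⊢
  have h3 := e2 n hmem
  have hN3' : (3 : ℝ) ≤ N := by exact_mod_cast hN3
  have hNn : (N : ℝ) ≤ n := by exact_mod_cast h2.1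
  have hlog0 : 0 < Real.log N := Real.log_pos (by linarith)
  have hlog1 : Real.log N ≤ Real.log n := Real.log_le_log (by linarith) hNn
  have h4 : ((Pool.Agent.U766.OP.Pos g (n ^ 5) (H n)).card : ℝ) ≤ Q (g 0) (g 1) (g 2) n := by
    exact_mod_cast Pos_le_Q g (hHeq n)
  refine le_trans ?_ (h3.trans h4)
  have h5 := hH4 n
  have h6 : Real.log N ^ 4 ≤ Real.log n ^ 4 := pow_le_pow_left₀ hlog0.le hlog1 4
  show c * (n : ℝ) ^ 4 / Real.log n ^ 4 ≤ c * H n / Real.log N ^ (3 + 1)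
  gcongr

end Pool.Agent.Results.MP_c03ca8_nt.SamePatternsInProgressions
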