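import Pool.Agent.U455.VEC
import Pool.Agent.U766.OP.Sq
import Pool.Agent.U766.OP.Exa
import Pool.Agent.Q278.KT.Fin

/-!
# Every vector of `(M ℤ)ᵏ` is a bounded sum of frequent shapes of prime `(k + 1)`-tuples

For `d ∈ ℤᵏ` with distinct nonzero entries (a shape) and a set `Q` let `count Q d` be the number of the `p ∈ Q` for which all
`p + d i` are in `Q`. For every `k ≥ 1` and `δ > 0` there are `h`, `M ≥ 1`, `κ > 0` and `K` such that for ALL large `x`, for
EVERY `H` with `x ^ 0.616 ≤ H ≤ x`, for EVERY set `Q` of primes of `(x, x + H]` containing at least the proportion `δ` of them,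
and for every `B` with `K log x ≤ B ≤ H`: EVERY vector `t ∈ (M ℤ)ᵏ` with `|t i| ≤ B` is a sum of at most `h` shapes `d` with
`|d i| ≤ B` and `count Q d ≥ κ H / (log x)ᵏ⁺¹` (the right order of magnitude).

The case `k = 3` concerns quadruples `p, p + d₁, p + d₂, p + d₃`, as in the question (the shape `(2, 6, 8)`), for instance in
`Q` = all primes of `(n⁵, (n + 1)⁵)`, for ALL large `n`.

Proof: a positive proportion of the shapes with entries in `[1, B]` is frequent (`Pool.Agent.U455.KTW.popular`: cells,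
convexity, the upper bound sieve and the second moment of the singular series). Hence for some `d₁, ..., dₖ₋₁` a positive
proportion of the last entries is frequent; translation of this set by its least element and a local form of Schnirelmann's
theorem give sums of EXACTLY `h₁` of these last entries in a progression with bounded difference and of length `B`, so the
differences of two such sums are vectors on an axis. The difference is a sum, because the `k + 1` rotations of a shape
(the same primes, seen from each of them, in cyclic order) have sum `0` (`Pool.Agent.U455.VEC.sum_rot`). Permuting the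
coordinates gives all axes.
-/

set_option autoImplicit false

namespace Pool.Agent.Results.MP_c03ca8_nt.ShapeVectors

open Filter Finset

open Classical in
/-- the number of the `p ∈ Q` with all `p + d i` in `Q` -/
noncomputable def count {k : ℕ} (Q : Finset ℕ) (d : Fin k → ℤ) : ℕ :=
  (Q.filter (fun p : ℕ => ∀ i, ∃ q ∈ Q, (q : ℤ) = (p : ℤ) + d i)).card

theorem result (k : ℕ) (hk : 1 ≤ k) (δ : ℝ) (hδ : 0 < δ) : ∃ h M : ℕ, 1 ≤ M ∧ ∃ κ K : ℝ, 0 < κ ∧
    ∀ᶠ x : ℕ in atTop, ∀ H : ℕ, (x : ℝ) ^ (0.616 : ℝ) ≤ H → H ≤ x →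
    ∀ Q : Finset ℕ, Q ⊆ (Ioc x (x + H)).filter Nat.Prime →
      δ * (((Ioc x (x + H)).filter Nat.Prime).card : ℝ) ≤ Q.card →
    ∀ B : ℕ, K * Real.log x ≤ B → B ≤ H → ∀ t : Fin k → ℤ, (∀ i, (M : ℤ) ∣ t i) → (∀ i, |t i| ≤ (B : ℤ)) →
      ∃ l : List (Fin k → ℤ), l.length ≤ h ∧ l.sum = t ∧ ∀ d ∈ l,
        (∀ i, d i ≠ 0) ∧ Function.Injective d ∧ (∀ i, |d i| ≤ (B : ℤ)) ∧
          κ * (H / Real.log x ^ (k + 1)) ≤ (count Q d : ℝ) := by
  classical
  obtain ⟨c, η, hc, hη, hη1, hall⟩ := Pool.Agent.U766.OP.all_long Pool.Agent.Q278.KT.mainp_043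
    (by norm_num) (by norm_num) (by norm_num) (by norm_num)
  obtain ⟨h, M, hM, κ, K, hκ, hK, X₀, hmain⟩ := Pool.Agent.U455.VEC.main k hk (δ * c / 2) (by positivity)
  refine ⟨h, M, hM, κ, K, hκ, ?_⟩
  have tn : Tendsto (fun n : ℕ => (n : ℝ)) atTop atTop := tendsto_natCast_atTop_atTop
  have tX : Tendsto (fun n : ℕ => (n : ℝ) ^ (0.616 : ℝ)) atTop atTop := (tendsto_rpow_atTop (by norm_num)).comp tn
  filter_upwards [tn.eventually hall, eventually_ge_atTop 8, tX.eventually_ge_atTop (X₀ : ℝ),
    (Real.tendsto_log_atTop.comp tn).eventually_ge_atTop 3] with x hx hx8 hxX hlog H hH hHx Q hQ hQc B hB hBH t hMt htB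
  have hlog' : 3 ≤ Real.log (x : ℝ) := hlog
  have hx8' : (8 : ℝ) ≤ x := by exact_mod_cast hx8
  have hx0 : (0 : ℝ) < x := by linarith
  have hx1 : (1 : ℝ) ≤ x := by linarith
  have hHxR : (H : ℝ) ≤ x := by exact_mod_cast hHx
  have hHX₀ : X₀ ≤ H := by
    have : (X₀ : ℝ) ≤ H := hxX.trans hH
    exact_mod_cast this
  have hH0 : (0 : ℝ) < H := lt_of_lt_of_le (by positivity) hH
  -- the logarithms
  have hl1 : Real.log H ≤ Real.log x := Real.log_le_log hH0 hHxR
  have hl2 : Real.log x ≤ 2 * Real.log H := by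
    have h1 := Real.log_le_log (by positivity) hH
    rw [Real.log_rpow hx0] at h1
    linarith
  have hl0 : 0 < Real.log (H : ℝ) := by linarith
  -- the number of primes
  have hprimes : c * H / Real.log x ≤ (((Ioc x (x + H)).filter Nat.Prime).card : ℝ) := by
    have h4 := hx x H le_rfl (by linarith) (by
      refine le_trans ?_ hH
      apply Real.rpow_le_rpow_of_exponent_le hx1
      norm_num
      linarith)
    rw [Pool.Agent.U766.OP.pic_nat] at h4
    exact h4
  have hQsub : Q ⊆ Ioc x (x + H) := fun p hp => (mem_filter.1 (hQ hp)).1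
  have hQp : ∀ p ∈ Q, p.Prime := fun p hp => (mem_filter.1 (hQ hp)).2
  have hQc' : δ * c / 2 * (H / Real.log H) ≤ Q.card := by
    refine le_trans ?_ hQc
    calc δ * c / 2 * (H / Real.log H) ≤ δ * c / 2 * (H / (Real.log x / 2)) := by
          gcongr
          linarith
      _ = δ * (c * H / Real.log x) := by field_simp
      _ ≤ _ := mul_le_mul_of_nonneg_left hprimes hδ.le
  obtain ⟨l, h1, h2, h3⟩ := hmain x H hHX₀ hHx Q hQsub hQp hQc' B (le_trans (by gcongr) hB) hBH t hMt htB
  refine ⟨l, h1, h2, fun d hd => ?_⟩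
  obtain ⟨g1, g2, g3, g4⟩ := h3 d hd
  have e : (Pool.Agent.U455.VEC.occ Q d).card = count Q d := by
    unfold Pool.Agent.U455.VEC.occ count
    rfl
  rw [e] at g4
  refine ⟨g1, g2, g3, le_trans ?_ g4⟩
  gcongr

end Pool.Agent.Results.MP_c03ca8_nt.ShapeVectors
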