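import Pool.Agent.U455.KTX
import Pool.Agent.U766.OP.Sq
import Pool.Agent.U766.OP.Exa
import Pool.Agent.Q278.KT.Fin

/-!
# Prime triples, quadruples, ... between consecutive fifth powers: many shapes, and bounded sums of their diameters

Fix `k ≥ 0` and `δ > 0`. There are `h`, `M ≥ 1`, `κ > 0` and `K` such that for ALL large `n`, for EVERY interval
`(a, a + H] ⊆ (n⁵, (n + 1)⁵)` of length `H ≥ n ^ 3.075` (for instance the whole interval between the two fifth powers) and
for EVERY set `Q` of primes of this interval which contains at least the proportion `δ` of them (for instance all of them):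
EVERY multiple `t` of `M` with `K log n ≤ t ≤ H` is a sum of at most `h` positive integers `d` each of which is the diameter
of at least `κ d ^ (k + 1)` shapes `T` (sets of `k + 3` integers with smallest element `0` and largest element `d`) such
that `p + T ⊆ Q` for at least `κ H / (log n) ^ (k + 3)` primes `p`. Both numbers have the right order of magnitude. The
case `k = 1` is about quadruples; the problem asks for the shape `{0, 2, 6, 8}`.

Proof: cutting the interval into short blocks and residue classes, a power mean inequality gives many `(k + 3)`-subsets of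
`Q` in the cells (`Pool.Agent.U455.KTW.cells`); the upper bound sieve (`Pool.Agent.Y840.PT.up`) and the second moment of
the singular series over all shapes (`Pool.Agent.TH891.SG.CT_mom`) show that a positive proportion of the shapes is popular
and that a positive proportion of all numbers `≤ L`, for every `L ≥ K log n`, are diameters of many popular shapes
(`Pool.Agent.U455.KTW.diam`), also among the multiples of a fixed number. Then a theorem on bounded sums for sets of
positive density (`Pool.Agent.U455.BTG.main`), which rests on a covering lemma and Schnirelmann's theorem. The number of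
primes of the interval is bounded from below by `Pool.Agent.Q278.KT.mainp_043`.
-/

set_option autoImplicit false

namespace Pool.Agent.Results.MP_c03ca8_nt.ShapesInDenseSubsets

open Filter Finset

/-- the sets of `k + 3` integers with smallest element `0` and largest element `d` -/
def Shapes (k d : ℕ) : Finset (Finset ℕ) :=
  ((range (d + 1)).powersetCard (k + 3)).filter (fun T => 0 ∈ T ∧ d ∈ T)

/-- the `p ∈ Q` for which all `p + t`, `t ∈ T`, belong to `Q` -/
def Positions (Q T : Finset ℕ) : Finset ℕ := Q.filter (fun p => ∀ t ∈ T, p + t ∈ Q)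

open Classical in
theorem result (k : ℕ) (δ : ℝ) (hδ : 0 < δ) : ∃ h M : ℕ, 1 ≤ M ∧ ∃ κ K : ℝ, 0 < κ ∧ ∀ᶠ n : ℕ in atTop,
    ∀ a H : ℕ, n ^ 5 ≤ a → a + H < (n + 1) ^ 5 → (n : ℝ) ^ (3.075 : ℝ) ≤ H →
    ∀ Q : Finset ℕ, Q ⊆ (Ioc a (a + H)).filter Nat.Prime →
      δ * (((Ioc a (a + H)).filter Nat.Prime).card : ℝ) ≤ Q.card →
    ∀ t : ℕ, M ∣ t → K * Real.log n ≤ t → t ≤ H →
    ∃ l : List ℕ, l.length ≤ h ∧ l.sum = t ∧ ∀ d ∈ l, 1 ≤ d ∧
      κ * (d : ℝ) ^ (k + 1) ≤ (((Shapes k d).filter (fun T =>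
        κ * (H / Real.log n ^ (k + 3)) ≤ ((Positions Q T).card : ℝ))).card : ℝ) := by
  obtain ⟨c, η, hc, hη, hη1, hall⟩ := Pool.Agent.U766.OP.all_long Pool.Agent.Q278.KT.mainp_043
    (by norm_num) (by norm_num) (by norm_num) (by norm_num)
  obtain ⟨h, M, hM, κ, K, hκ, hK, X₀, hmain⟩ := Pool.Agent.U455.KTX.main (k + 1) (δ * c / 5) (by positivity)
  refine ⟨h, M, hM, κ / 5 ^ (k + 3), 5 * K, by positivity, ?_⟩
  have tn : Tendsto (fun n : ℕ => (n : ℝ)) atTop atTop := tendsto_natCast_atTop_atTop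
  have t5 : Tendsto (fun n : ℕ => (n : ℝ) ^ 5) atTop atTop := (tendsto_pow_atTop (by norm_num)).comp tn
  filter_upwards [t5.eventually hall, eventually_ge_atTop 31, eventually_ge_atTop X₀,
    (Real.tendsto_log_atTop.comp tn).eventually_ge_atTop 3] with n hn hn31 hnX hlog
    a H ha haH hH Q hQ hQc t hMt htK htH
  have hlog' : 3 ≤ Real.log (n : ℝ) := hlog
  have hn31' : (31 : ℝ) ≤ n := by exact_mod_cast hn31
  have hn0 : (0 : ℝ) < n := by linarith
  have hn1 : (1 : ℝ) ≤ n := by linarith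
  have haR : (n : ℝ) ^ 5 ≤ a := by exact_mod_cast ha
  have haHR : (a : ℝ) + H ≤ ((n : ℝ) + 1) ^ 5 := by exact_mod_cast haH.le
  have e2 : (n : ℝ) ≤ (n : ℝ) ^ 2 := by nlinarith
  have e3 : (n : ℝ) ^ 2 ≤ (n : ℝ) ^ 3 := by nlinarith [sq_nonneg (n : ℝ)]
  have e4 : (n : ℝ) ^ 3 ≤ (n : ℝ) ^ 4 := by
    have : (0 : ℝ) ≤ (n : ℝ) ^ 3 := by positivity
    nlinarith
  have e5 : 31 * (n : ℝ) ^ 4 ≤ (n : ℝ) ^ 5 := by
    have : (0 : ℝ) ≤ (n : ℝ) ^ 4 := by positivity
    nlinarith
  have ex : ((n : ℝ) + 1) ^ 5 ≤ (n : ℝ) ^ 5 + 31 * (n : ℝ) ^ 4 := by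
    have e : ((n : ℝ) + 1) ^ 5 = (n : ℝ) ^ 5 + 5 * (n : ℝ) ^ 4 + 10 * (n : ℝ) ^ 3 + 10 * (n : ℝ) ^ 2 + 5 * n + 1 := by
      ring
    rw [e]
    linarith
  have hHn : (n : ℝ) ≤ H := by
    refine le_trans ?_ hH
    calc (n : ℝ) = (n : ℝ) ^ (1 : ℝ) := (Real.rpow_one _).symm
      _ ≤ (n : ℝ) ^ (3.075 : ℝ) := Real.rpow_le_rpow_of_exponent_le hn1 (by norm_num)
  have hH0 : (0 : ℝ) < H := by linarith
  have hHn' : n ≤ H := by exact_mod_cast hHn
  have hH5 : (H : ℝ) ≤ (n : ℝ) ^ 5 := by linarith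
  have hHa : H ≤ a := by
    have h1 : (H : ℝ) ≤ a := by linarith
    exact_mod_cast h1
  -- the logarithms
  have hl1 : Real.log n ≤ Real.log H := Real.log_le_log hn0 hHn
  have hl2 : Real.log H ≤ 5 * Real.log n := by
    have h2 := Real.log_le_log hH0 hH5
    rw [Real.log_pow] at h2
    exact_mod_cast h2
  have hlog5 : Real.log ((n : ℝ) ^ 5) = 5 * Real.log n := by rw [Real.log_pow]; norm_num
  -- the number of primes
  have hprimes : c * H / (5 * Real.log n) ≤ (((Ioc a (a + H)).filter Nat.Prime).card : ℝ) := by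
    have h4 := hn a H haR (by linarith) (by
      refine le_trans ?_ hH
      rw [show (1 : ℝ) - 0.43 + 0.045 - η = 0.615 - η by norm_num, ← Real.rpow_natCast (n : ℝ) 5,
        ← Real.rpow_mul hn0.le]
      apply Real.rpow_le_rpow_of_exponent_le hn1
      push_cast
      linarith)
    rw [Pool.Agent.U766.OP.pic_nat, hlog5] at h4
    exact h4
  have hQsub : Q ⊆ Ioc a (a + H) := fun p hp => (mem_filter.1 (hQ hp)).1
  have hQp : ∀ p ∈ Q, p.Prime := fun p hp => (mem_filter.1 (hQ hp)).2
  have hQc' : δ * c / 5 * (H / Real.log H) ≤ Q.card := by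
    refine le_trans ?_ hQc
    calc δ * c / 5 * (H / Real.log H) ≤ δ * c / 5 * (H / Real.log n) := by gcongr
      _ = δ * (c * H / (5 * Real.log n)) := by field_simp
      _ ≤ _ := mul_le_mul_of_nonneg_left hprimes hδ.le
  obtain ⟨l, hl1', hl2', hl3⟩ := hmain a H (hnX.trans hHn') hHa Q hQsub hQp hQc' t hMt (by
    calc K * Real.log H ≤ K * (5 * Real.log n) := by gcongr
      _ = 5 * K * Real.log n := by ring
      _ ≤ t := htK) htH
  refine ⟨l, hl1', hl2', fun d hd => ⟨(hl3 d hd).1, ?_⟩⟩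
  have hV : κ / 5 ^ (k + 3) * (H / Real.log n ^ (k + 3)) ≤ κ * (H / Real.log H ^ (k + 3)) := by
    have h5 : (H : ℝ) / (5 * Real.log n) ^ (k + 3) ≤ H / Real.log H ^ (k + 3) := by
      have : 0 < Real.log (H : ℝ) := by linarith
      gcongr
    calc κ / 5 ^ (k + 3) * (H / Real.log n ^ (k + 3)) = κ * (H / (5 * Real.log n) ^ (k + 3)) := by
          rw [mul_pow]
          field_simp
      _ ≤ _ := by gcongr
  have hκκ : κ / 5 ^ (k + 3) ≤ κ := div_le_self hκ.le (one_le_pow₀ (by norm_num))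
  refine (mul_le_mul_of_nonneg_right hκκ (by positivity)).trans ((hl3 d hd).2.trans (Nat.cast_le.2
    (card_le_card fun T hT => ?_)))
  rw [mem_filter] at hT ⊢
  refine ⟨hT.1, hV.trans ?_⟩
  exact hT.2

end Pool.Agent.Results.MP_c03ca8_nt.ShapesInDenseSubsets
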